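import Mathlib

set_option autoImplicit false

/-!
# Every finitely generated group has a finite generating set making every element a palindrome

For a group `G` generated by the finite list `B` with `k` entries there is a finite set `A ⊇ B` with
at most `2 ^ k - 1` elements such that *every* element of `G` is represented by a palindromic word
over `A ∪ A⁻¹`.  So the palindromic side of the equivalence of Bardakov and Gongopadhyay holds for
every finitely generated group, and the equivalence for `G` holds exactly when `G` has finite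
commutator width.  For `ℤ ^ k` no set with fewer than `2 ^ k - 1` elements will do.
-/

namespace Pool.Agent.Results.MP_bb0bfc_al.EveryElementPalindrome

universe u

/-- `g` is a palindrome with respect to `A`: it is the value of a word over `A ∪ A⁻¹` that
coincides letter by letter with its reversal. -/
def IsPalindromeOver {G : Type u} [Group G] (A : Finset G) (g : G) : Prop :=
  ∃ w : List G, w.reverse = w ∧ (∀ x ∈ w, x ∈ A ∨ x⁻¹ ∈ A) ∧ w.prod = g

/-- Values of the reversals of the relators over the alphabet `S` (closed under inverses). -/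
def revRel {G : Type u} [Group G] (S : Set G) (hS : ∀ x ∈ S, x⁻¹ ∈ S) : Subgroup G where
  carrier := {g | ∃ w : List G, (∀ x ∈ w, x ∈ S) ∧ w.prod = 1 ∧ w.reverse.prod = g}
  one_mem' := ⟨[], by simp, by simp, by simp⟩
  mul_mem' := by
    rintro a b ⟨w₁, h₁, p₁, rfl⟩ ⟨w₂, h₂, p₂, rfl⟩
    refine ⟨w₂ ++ w₁, ?_, by simp [p₁, p₂], by simp⟩
    intro x hx
    rcases List.mem_append.1 hx with h | h
    · exact h₂ x h
    · exact h₁ x h
  inv_mem' := by
    rintro a ⟨w, h, p, rfl⟩
    refine ⟨(w.map fun x => x⁻¹).reverse, ?_, ?_, ?_⟩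
    · intro x hx
      rw [List.mem_reverse, List.mem_map] at hx
      obtain ⟨y, hy, rfl⟩ := hx
      exact hS y (h y hy)
    · rw [← List.prod_inv_reverse, p, inv_one]
    · rw [List.prod_inv_reverse, List.map_reverse, List.reverse_reverse]

theorem exists_word {G : Type u} [Group G] {S : Set G} (hS : ∀ x ∈ S, x⁻¹ ∈ S)
    (hgen : Subgroup.closure S = ⊤) (g : G) : ∃ w : List G, (∀ x ∈ w, x ∈ S) ∧ w.prod = g := by
  have hg : g ∈ Subgroup.closure S := by rw [hgen]; trivial
  induction hg using Subgroup.closure_induction with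
  | mem x hx => exact ⟨[x], by simpa using hx, by simp⟩
  | one => exact ⟨[], by simp, by simp⟩
  | mul x y _ _ hx hy =>
    obtain ⟨w₁, h₁, rfl⟩ := hx
    obtain ⟨w₂, h₂, rfl⟩ := hy
    refine ⟨w₁ ++ w₂, ?_, by simp⟩
    intro x hx
    rcases List.mem_append.1 hx with h | h
    · exact h₁ x h
    · exact h₂ x h
  | inv x _ hx =>
    obtain ⟨w, h, rfl⟩ := hx
    refine ⟨(w.map fun x => x⁻¹).reverse, ?_, ?_⟩
    · intro x hx
      rw [List.mem_reverse, List.mem_map] at hx
      obtain ⟨y, hy, rfl⟩ := hx
      exact hS y (h y hy)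
    · rw [← List.prod_inv_reverse]

theorem revRel_normal {G : Type u} [Group G] {S : Set G} (hS : ∀ x ∈ S, x⁻¹ ∈ S)
    (hgen : Subgroup.closure S = ⊤) : (revRel S hS).Normal := by
  constructor
  rintro n ⟨w, hw, hw1, rfl⟩ g
  obtain ⟨v', hv', hg'⟩ := exists_word hS hgen g
  -- `v` is the reversal of a word for `g`
  refine ⟨((v'.reverse.map fun x => x⁻¹).reverse ++ w) ++ v'.reverse, ?_, ?_, ?_⟩
  · intro x hx
    rcases List.mem_append.1 hx with h | h
    · rcases List.mem_append.1 h with h | h
      · rw [List.mem_reverse, List.mem_map] at h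
        obtain ⟨y, hy, rfl⟩ := h
        exact hS y (hv' y (List.mem_reverse.1 hy))
      · exact hw x h
    · exact hv' x (List.mem_reverse.1 h)
  · rw [List.prod_append, List.prod_append, hw1, mul_one, ← List.prod_inv_reverse,
      inv_mul_cancel]
  · rw [List.reverse_append, List.reverse_append, List.prod_append, List.prod_append,
      List.reverse_reverse, List.reverse_reverse, hg', List.map_reverse, mul_assoc]
    congr 2
    rw [← List.prod_inv_reverse, hg']

/-- Modulo squares, every element of a commutative group generated by a list is the product of a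
sublist. -/
theorem exists_sq_mul_sublist {Q : Type u} [CommGroup Q] (B : List Q) :
    ∀ x ∈ Subgroup.closure {y | y ∈ B}, ∃ r : Q, ∃ l : List Q, l.Sublist B ∧ x = r ^ 2 * l.prod := by
  induction B with
  | nil =>
    intro x hx
    have : x = 1 := by simpa using hx
    exact ⟨1, [], List.Sublist.refl _, by simp [this]⟩
  | cons b B ih =>
    intro x hx
    have hset : {y | y ∈ b :: B} = {b} ∪ {y | y ∈ B} := by
      ext y; simp
    rw [hset, Subgroup.closure_union, Subgroup.mem_sup] at hx
    obtain ⟨y, hy, z, hz, rfl⟩ := hx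
    obtain ⟨m, rfl⟩ := Subgroup.mem_closure_singleton.1 hy
    obtain ⟨r, l, hl, rfl⟩ := ih z hz
    rcases Int.even_or_odd' m with ⟨q, hq | hq⟩
    · refine ⟨b ^ q * r, l, hl.cons b, ?_⟩
      rw [hq, mul_pow, mul_assoc, zpow_mul', zpow_ofNat]
    · refine ⟨b ^ q * r, b :: l, hl.cons_cons b, ?_⟩
      rw [hq, mul_pow, List.prod_cons, zpow_add, zpow_mul', zpow_ofNat, zpow_one,
        mul_assoc, mul_assoc]
      congr 1
      rw [mul_left_comm]

theorem isPalindromeOver_mul_revRel {G : Type u} [Group G] {A : Finset G}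
    (hS : ∀ x ∈ {x : G | x ∈ A ∨ x⁻¹ ∈ A}, x⁻¹ ∈ {x : G | x ∈ A ∨ x⁻¹ ∈ A}) {p n : G}
    (hp : IsPalindromeOver A p) (hn : n ∈ revRel {x : G | x ∈ A ∨ x⁻¹ ∈ A} hS) :
    IsPalindromeOver A (p * n) := by
  obtain ⟨w, hw, hwA, rfl⟩ := hp
  obtain ⟨v, hv, hv1, rfl⟩ := hn
  refine ⟨v ++ w ++ v.reverse, ?_, ?_, ?_⟩
  · simp [hw]
  · intro x hx
    rcases List.mem_append.1 hx with h | h
    · rcases List.mem_append.1 h with h | h
      · exact hv x h
      · exact hwA x h
    · exact hv x (List.mem_reverse.1 h)
  · simp [hv1]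

/-- The products of the nonempty sublists of `B`. -/
noncomputable def sub {G : Type u} [Group G] (B : List G) : Finset G := by
  classical
  exact ((B.sublists.filter (fun l => l ≠ [])).map List.prod).toFinset

theorem mem_sub {G : Type u} [Group G] (B : List G) (g : G) :
    g ∈ sub B ↔ ∃ l : List G, l.Sublist B ∧ l ≠ [] ∧ l.prod = g := by
  classical
  simp [sub, and_assoc]

theorem card_sub {G : Type u} [Group G] (B : List G) : (sub B).card ≤ 2 ^ B.length - 1 := by
  classical
  have h1 : (sub B).card ≤ (B.sublists.filter (fun l => l ≠ [])).length := by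
    unfold sub
    refine (List.toFinset_card_le _).trans ?_
    simp
  have h2 : (B.sublists.filter (fun l => l ≠ [])).length < B.sublists.length := by
    refine List.length_filter_lt_length_iff_exists.2 ⟨[], ?_, by simp⟩
    simp
  rw [List.length_sublists] at h2
  omega

theorem pair_sublist {G : Type u} (B : List G) {x y : G} (hxy : x ≠ y) :
    x ∈ B → y ∈ B → [x, y].Sublist B ∨ [y, x].Sublist B := by
  induction B with
  | nil => intro h; simp at h
  | cons c B ih =>
    intro hx hy
    rcases List.mem_cons.1 hx with rfl | hx'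
    · rcases List.mem_cons.1 hy with h | hy'
      · exact absurd h.symm hxy
      · exact Or.inl ((List.singleton_sublist.2 hy').cons_cons x)
    · rcases List.mem_cons.1 hy with rfl | hy'
      · exact Or.inr ((List.singleton_sublist.2 hx').cons_cons y)
      · rcases ih hx' hy' with h | h
        · exact Or.inl (h.cons c)
        · exact Or.inr (h.cons c)

theorem isPalindromeOver_sub {G : Type u} [Group G] (B : List G)
    (hB : Subgroup.closure {x | x ∈ B} = ⊤) (g : G) : IsPalindromeOver (sub B) g := by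
  classical
  set A := sub B with hA
  have hS : ∀ x ∈ {x : G | x ∈ A ∨ x⁻¹ ∈ A}, x⁻¹ ∈ {x : G | x ∈ A ∨ x⁻¹ ∈ A} := by
    intro x hx
    rcases hx with h | h
    · right; simpa using h
    · left; exact h
  have hBA : ∀ x ∈ B, x ∈ A := fun x hx =>
    (mem_sub B x).2 ⟨[x], List.singleton_sublist.2 hx, by simp, by simp⟩
  have hgen : Subgroup.closure {x : G | x ∈ A ∨ x⁻¹ ∈ A} = ⊤ := by
    rw [eq_top_iff, ← hB]
    exact Subgroup.closure_mono fun x hx => Or.inl (hBA x hx)
  have hN := revRel_normal hS hgen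
  set N := revRel {x : G | x ∈ A ∨ x⁻¹ ∈ A} hS with hNdef
  -- generators commute modulo `N`
  have hpair : ∀ l : List G, l.Sublist B → ∀ x y : G, l = [x, y] →
      (x * y)⁻¹ * (y * x) ∈ N := by
    rintro l hl x y rfl
    have hxB : x ∈ B := hl.subset (by simp)
    have hyB : y ∈ B := hl.subset (by simp)
    refine ⟨[x, y, (x * y)⁻¹], ?_, by simp, by simp [mul_assoc]⟩
    intro z hz
    simp only [List.mem_cons, List.not_mem_nil, or_false] at hz
    rcases hz with rfl | rfl | rfl
    · exact Or.inl (hBA _ hxB)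
    · exact Or.inl (hBA _ hyB)
    · right
      rw [inv_inv]
      exact (mem_sub B _).2 ⟨[x, y], hl, by simp, by simp⟩
  have hcomm : ∀ x ∈ B, ∀ y ∈ B, (QuotientGroup.mk' N x) * (QuotientGroup.mk' N y) =
      (QuotientGroup.mk' N y) * (QuotientGroup.mk' N x) := by
    intro x hx y hy
    have key : ∀ x y : G, [x, y].Sublist B →
        (QuotientGroup.mk' N x) * (QuotientGroup.mk' N y) =
          (QuotientGroup.mk' N y) * (QuotientGroup.mk' N x) := by
      intro x y h
      rw [← map_mul, ← map_mul, QuotientGroup.mk'_apply, QuotientGroup.mk'_apply,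
        QuotientGroup.eq]
      exact hpair _ h x y rfl
    by_cases hxy : x = y
    · rw [hxy]
    · rcases pair_sublist B hxy hx hy with h | h
      · exact key _ _ h
      · exact (key _ _ h).symm
  have hcommN : commutator G ≤ N := by
    rw [← Subgroup.Normal.quotient_commutative_iff_commutator_le]
    refine ⟨⟨fun a b => ?_⟩⟩
    obtain ⟨a, rfl⟩ := QuotientGroup.mk'_surjective N a
    obtain ⟨b, rfl⟩ := QuotientGroup.mk'_surjective N b
    have ha : a ∈ Subgroup.closure {x | x ∈ B} := by rw [hB]; trivial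
    have hb : b ∈ Subgroup.closure {x | x ∈ B} := by rw [hB]; trivial
    refine Subgroup.closure_induction₂
      (p := fun x y _ _ => Commute (QuotientGroup.mk' N x) (QuotientGroup.mk' N y))
      (fun x y hx hy => hcomm x hx y hy) ?_ ?_ ?_ ?_ ?_ ?_ ha hb
    · intro x _; rw [map_one]; exact Commute.one_left _
    · intro x _; rw [map_one]; exact Commute.one_right _
    · intro x y z _ _ _ h1 h2; rw [map_mul]; exact h1.mul_left h2
    · intro y z x _ _ _ h1 h2; rw [map_mul]; exact h1.mul_right h2
    · intro x y _ _ h; rw [map_inv]; exact h.inv_left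
    · intro x y _ _ h; rw [map_inv]; exact h.inv_right
  -- every element is a palindrome modulo `N`
  have hab : Abelianization.of g ∈
      Subgroup.closure {y | y ∈ B.map (Abelianization.of : G →* Abelianization G)} := by
    have h1 : {y | y ∈ B.map (Abelianization.of : G →* Abelianization G)} =
        (Abelianization.of : G →* Abelianization G) '' {x | x ∈ B} := by
      ext y; simp
    rw [h1, ← MonoidHom.map_closure, hB]
    exact ⟨g, trivial, rfl⟩
  obtain ⟨r, l', hl', hgr⟩ := exists_sq_mul_sublist _ _ hab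
  obtain ⟨l, hl, rfl⟩ := List.sublist_map_iff.1 hl'
  obtain ⟨r, rfl⟩ : ∃ r' : G, Abelianization.of r' = r := by
    obtain ⟨r', hr'⟩ := QuotientGroup.mk_surjective r
    exact ⟨r', hr'⟩
  obtain ⟨u, hu, rfl⟩ := exists_word hS hgen r
  -- the palindrome
  obtain ⟨s, hs, hs', hsp⟩ : ∃ s : List G, s.reverse = s ∧ (∀ x ∈ s, x ∈ A ∨ x⁻¹ ∈ A) ∧
      s.prod = l.prod := by
    by_cases hl0 : l = []
    · exact ⟨[], by simp, by simp, by simp [hl0]⟩
    · refine ⟨[l.prod], by simp, ?_, by simp⟩
      intro x hx
      rw [List.mem_singleton] at hx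
      subst hx
      exact Or.inl ((mem_sub B _).2 ⟨l, hl, hl0, rfl⟩)
  have hpal : IsPalindromeOver A (u ++ s ++ u.reverse).prod := by
    refine ⟨u ++ s ++ u.reverse, by simp [hs], ?_, rfl⟩
    intro x hx
    rcases List.mem_append.1 hx with h | h
    · rcases List.mem_append.1 h with h | h
      · exact hu x h
      · exact hs' x h
    · exact hu x (List.mem_reverse.1 h)
  have hrev : Abelianization.of (u.reverse.prod) = Abelianization.of u.prod := by
    rw [map_list_prod, map_list_prod]
    exact ((List.reverse_perm u).map _).prod_eq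
  have hmem : (u ++ s ++ u.reverse).prod⁻¹ * g ∈ N := by
    apply hcommN
    rw [← Abelianization.ker_of, MonoidHom.mem_ker, map_mul, map_inv, hgr, List.prod_append,
      List.prod_append, map_mul, map_mul, hrev, hsp, inv_mul_eq_one, map_list_prod _ l, pow_two,
      mul_right_comm]
  have := isPalindromeOver_mul_revRel hS hpal hmem
  rwa [mul_inv_cancel_left] at this

/-- In `ℤ ^ k` (written multiplicatively) the palindromes over `A` are squares or squares times a
letter of `A ∪ A⁻¹`. -/
theorem palindrome_comm {Q : Type u} [CommGroup Q] {A : Finset Q} {g : Q}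
    (hg : IsPalindromeOver A g) : ∃ r : Q, g = r ^ 2 ∨ ∃ a ∈ A, g = r ^ 2 * a := by
  obtain ⟨w, hw, hwA, rfl⟩ := hg
  have hpal : w.Palindrome := List.Palindrome.of_reverse_eq hw
  clear hw
  induction hpal with
  | nil => exact ⟨1, Or.inl (by simp)⟩
  | singleton x =>
    rcases hwA x (by simp) with h | h
    · exact ⟨1, Or.inr ⟨x, h, by simp⟩⟩
    · exact ⟨x, Or.inr ⟨x⁻¹, h, by simp [pow_two]⟩⟩
  | cons_concat x hl ih =>
    rename_i l
    obtain ⟨r, hr⟩ := ih fun y hy => hwA y (by simp [hy])
    refine ⟨x * r, ?_⟩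
    have hprod : (x :: (l ++ [x])).prod = x ^ 2 * l.prod := by
      simp only [List.prod_cons, List.prod_append, List.prod_nil, mul_one]
      rw [pow_two, mul_assoc, mul_comm l.prod x]
    rcases hr with hr | ⟨a, ha, hr⟩
    · left
      rw [hprod, hr, mul_pow]
    · right
      exact ⟨a, ha, by rw [hprod, hr, mul_pow, mul_assoc]⟩

/-- For `ℤ ^ k` at least `2 ^ k - 1` generators are needed. -/
theorem card_lower (k : ℕ) (A : Finset (Multiplicative (Fin k → ℤ)))
    (hA : ∀ g, IsPalindromeOver A g) : 2 ^ k - 1 ≤ A.card := by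
  classical
  -- reduction modulo two
  let f : Multiplicative (Fin k → ℤ) → (Fin k → ZMod 2) := fun g i =>
    ((Multiplicative.toAdd g i : ℤ) : ZMod 2)
  have hsub : (Finset.univ.erase (0 : Fin k → ZMod 2)) ⊆ A.image f := by
    intro v hv
    have hv0 : v ≠ 0 := (Finset.mem_erase.1 hv).1
    let g : Multiplicative (Fin k → ℤ) := Multiplicative.ofAdd fun i => ((v i).val : ℤ)
    have hg : f g = v := by
      funext i
      simp [f, g]
    obtain ⟨r, hr⟩ := palindrome_comm (hA g)
    have h2 : (2 : ZMod 2) = 0 := by decide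
    rcases hr with hr | ⟨a, ha, hr⟩
    · exfalso
      apply hv0
      rw [← hg, hr]
      funext i
      simp [f, toAdd_pow, h2]
    · refine Finset.mem_image.2 ⟨a, ha, ?_⟩
      rw [← hg, hr]
      funext i
      simp [f, toAdd_mul, toAdd_pow, h2]
  have h1 := Finset.card_le_card hsub
  rw [Finset.card_erase_of_mem (Finset.mem_univ _), Finset.card_univ] at h1
  have h3 : Fintype.card (Fin k → ZMod 2) = 2 ^ k := by simp
  rw [h3] at h1
  exact h1.trans Finset.card_image_le

/-- **Theorem.** (1) If a group `G` is generated by the `k` entries of the list `B`, then there is a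
finite set `A` containing `B`, with at most `2 ^ k - 1` elements, for which every element of `G` is
represented by a palindromic word over `A ∪ A⁻¹`.
(2) For `ℤ ^ k` no finite set with fewer than `2 ^ k - 1` elements has this property.
(3) Hence for every finitely generated `G` the palindromic side of Q1 holds, so that the
equivalence of Q1 for `G` is equivalent to finiteness of the commutator width of `G`. -/
theorem result :
    (∀ (G : Type u) [Group G] (B : List G), Subgroup.closure {x | x ∈ B} = ⊤ →
      ∃ A : Finset G, (∀ x ∈ B, x ∈ A) ∧ A.card ≤ 2 ^ B.length - 1 ∧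
        ∀ g : G, IsPalindromeOver A g) ∧
    (∀ (k : ℕ) (A : Finset (Multiplicative (Fin k → ℤ))),
      (∀ g, IsPalindromeOver A g) → 2 ^ k - 1 ≤ A.card) ∧
    (∀ (G : Type u) [Group G] [Group.FG G],
      (∃ S : Finset G, Subgroup.closure (S : Set G) = ⊤ ∧
        ∃ n : ℕ, ∀ g : G, ∃ L : List (List G), L.length ≤ n ∧
          (∀ w ∈ L, w.reverse = w ∧ ∀ x ∈ w, x ∈ S ∨ x⁻¹ ∈ S) ∧
          (L.map List.prod).prod = g) ∧
      (((∃ S : Finset G, Subgroup.closure (S : Set G) = ⊤ ∧
        ∃ n : ℕ, ∀ g : G, ∃ L : List (List G), L.length ≤ n ∧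
          (∀ w ∈ L, w.reverse = w ∧ ∀ x ∈ w, x ∈ S ∨ x⁻¹ ∈ S) ∧
          (L.map List.prod).prod = g) ↔
        (∃ n : ℕ, ∀ g ∈ commutator G, ∃ l : List G, l.length ≤ n ∧
          (∀ c ∈ l, c ∈ commutatorSet G) ∧ l.prod = g)) ↔
        (∃ n : ℕ, ∀ g ∈ commutator G, ∃ l : List G, l.length ≤ n ∧
          (∀ c ∈ l, c ∈ commutatorSet G) ∧ l.prod = g))) := by
  classical
  have h1 : ∀ (G : Type u) [Group G] (B : List G), Subgroup.closure {x | x ∈ B} = ⊤ →
      ∃ A : Finset G, (∀ x ∈ B, x ∈ A) ∧ A.card ≤ 2 ^ B.length - 1 ∧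
        ∀ g : G, IsPalindromeOver A g := fun G _ B hB =>
    ⟨sub B, fun x hx => (mem_sub B x).2 ⟨[x], List.singleton_sublist.2 hx, by simp, by simp⟩,
      card_sub B, isPalindromeOver_sub B hB⟩
  refine ⟨h1, card_lower, ?_⟩
  intro G _ _
  have hleft : ∃ S : Finset G, Subgroup.closure (S : Set G) = ⊤ ∧
        ∃ n : ℕ, ∀ g : G, ∃ L : List (List G), L.length ≤ n ∧
          (∀ w ∈ L, w.reverse = w ∧ ∀ x ∈ w, x ∈ S ∨ x⁻¹ ∈ S) ∧
          (L.map List.prod).prod = g := by
    obtain ⟨B, hB⟩ := (Group.fg_iff' ).1 ‹Group.FG G›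
    obtain ⟨A, hBA, -, hpal⟩ := h1 G hB.choose.toList (by simpa using hB.choose_spec.2)
    refine ⟨A, ?_, 1, ?_⟩
    · rw [eq_top_iff]
      intro g _
      obtain ⟨w, -, hw, rfl⟩ := hpal g
      refine list_prod_mem ?_
      intro x hx
      rcases hw x hx with h | h
      · exact Subgroup.subset_closure h
      · exact (Subgroup.inv_mem_iff _).1 (Subgroup.subset_closure h)
    · intro g
      obtain ⟨w, hw1, hw2, hw3⟩ := hpal g
      exact ⟨[w], by simp, by simpa using ⟨hw1, hw2⟩, by simpa using hw3⟩
  exact ⟨hleft, ⟨fun h => h.1 hleft, fun h => ⟨fun _ => h, fun _ => hleft⟩⟩⟩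

end Pool.Agent.Results.MP_bb0bfc_al.EveryElementPalindrome
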